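import Pool.Agent.MLD.QhLin

namespace Pool.Agent.Results.MP_405ba3_ag.LinearForms

open MLD MvPolynomial

/-- Uniform ideal-adic semicontinuity of minimal log discrepancies at the origin of affine
`n`-space over an algebraically closed field `k` of characteristic zero, for the `ℝ`-ideals
`a = ∏ a_j^(lam j)` with exponents in a finite set `I` all of whose factors are generated, in suitable
formal coordinates (depending on `a`), by products of linear forms; the `ℝ`-ideal `b` is arbitrary. -/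
theorem result.{u} (k : Type u) [Field k] [IsAlgClosed k] [CharZero k] (n : ℕ) (hn : 0 < n)
    (I : Set ℝ) (hI : I.Finite) (hI0 : ∀ t ∈ I, 0 ≤ t) :
    ∃ s : ℕ, 1 ≤ s ∧ ∀ (r : ℕ) (lam : Fin r → ℝ) (a b : Fin r → Ideal (MvPolynomial (Fin n) k)),
      (∀ j, lam j ∈ I) → (∀ j, a j ≠ ⊥) → (∀ j, b j ≠ ⊥) →
      (∃ φ : MvPowerSeries (Fin n) k ≃ₐ[k] MvPowerSeries (Fin n) k,
        ∀ j, FormalGen (LinProducts k (Fin n)) φ (a j)) →
      (∀ j, a j ⊔ mm k (Fin n) ^ s = b j ⊔ mm k (Fin n) ^ s) →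
      (0 ≤ mld lam a ↔ 0 ≤ mld lam b) ∧
        (0 ≤ mld lam a → 0 ≤ mld lam b → mld lam a = mld lam b) := by
  obtain ⟨s, hs, h⟩ := lin_final (k := k) n hn I hI hI0
  refine ⟨s, hs, fun r lam a b h1 h2 h3 ⟨φ, hφ⟩ h5 => h r lam a b h1 h2 h3 ⟨φ, fun j => ?_⟩ h5⟩
  obtain ⟨S, hS, h6⟩ := hφ j
  exact ⟨S, hS.trans (linProducts_eq _), h6⟩

end Pool.Agent.Results.MP_405ba3_ag.LinearForms
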