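import Pool.Agent.Helper73.TG.Main

namespace Pool.Agent.Results.MP_405ba3_ag.ThreefoldGerms

open Pool.Agent.Helper73.TG

/-- Q1 (uniform ideal-adic semicontinuity of minimal log discrepancies) for every threefold germ
`(R, m, N, y, g)` of the class `Good k`, over an algebraically closed field `k` of characteristic
zero: toric germs, quotients of `𝔸^3` by finite linear groups, regular germs, and all germs which
are connected with these by etale morphisms with trivial residue field extension. -/
theorem result.{u} (k : Type u) [Field k] [IsAlgClosed k] [CharZero k] (K : Type u) [Field K]
    [Algebra k K] (R : Subalgebra k K) (m : Ideal R) (N : ℕ) (y : Fin 3 → K) (g : K)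
    (h : Good k K R m N y g) : Q1 R m N y g := main K R m N y g h

end Pool.Agent.Results.MP_405ba3_ag.ThreefoldGerms
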