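import Pool.Agent.MLD.QcFin

namespace Pool.Agent.Results.MP_405ba3_ag.TorusCorankTwo

open MLD MvPolynomial

/-- Uniform ideal-adic semicontinuity of minimal log discrepancies at the origin of affine
`n`-space, `n = m + 3`, over an algebraically closed field `k` of characteristic zero, for the
`ℝ`-ideals `a = ∏ a_j^(lam j)` with exponents in a finite set `I` which are invariant, in suitable
formal coordinates, under a torus of rank `n - 2` with a positive weight: the `a_j` are generated by
polynomials (in the formal coordinates) which are homogeneous for `n - 2` linearly independent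
integer weights `W 0, ..., W (n - 3)`, where `W 0` is positive.  Coordinates and weights depend on `a`;
the `ℝ`-ideal `b` is arbitrary.  For `n = 3` these are all quasi-homogeneous `ℝ`-ideals. -/
theorem result.{u} (k : Type u) [Field k] [IsAlgClosed k] [CharZero k] (m : ℕ)
    (I : Set ℝ) (hI : I.Finite) (hI0 : ∀ t ∈ I, 0 ≤ t) :
    ∃ s : ℕ, 1 ≤ s ∧ ∀ (r : ℕ) (lam : Fin r → ℝ)
      (a b : Fin r → Ideal (MvPolynomial (Fin (m + 3)) k)),
      (∀ j, lam j ∈ I) → (∀ j, a j ≠ ⊥) → (∀ j, b j ≠ ⊥) →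
      (∃ (W : Fin (m + 1) → Fin (m + 3) → ℤ)
        (φ : MvPowerSeries (Fin (m + 3)) k ≃ₐ[k] MvPowerSeries (Fin (m + 3)) k),
        LinearIndependent ℤ W ∧ (∀ i, 0 < W 0 i) ∧ ∀ j, FormalGen (MH W) φ (a j)) →
      (∀ j, a j ⊔ mm k (Fin (m + 3)) ^ s = b j ⊔ mm k (Fin (m + 3)) ^ s) →
      (0 ≤ mld lam a ↔ 0 ≤ mld lam b) ∧
        (0 ≤ mld lam a → 0 ≤ mld lam b → mld lam a = mld lam b) :=
  q1_torus k m I hI hI0

end Pool.Agent.Results.MP_405ba3_ag.TorusCorankTwo
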